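import Pool.Agent.W200.MR.Stm

/-!
# Piece t_U: the weight sets
-/

open Finset

namespace Pool.Agent.W356.MR

open Pool.Agent.W200.MR

theorem exists_U (m : ℕ) (hm : 1 ≤ m) (T : ℕ) : ∃ U : Finset ℕ,
    U.Nonempty ∧ (∀ u ∈ U, 1 ≤ u ∧ Smooth T u) ∧ U.card ≤ m ^ T ∧
    ∀ p : ℕ, p.Prime → p < T →
      (U.image (fun u => p * u) \ U).card * m ≤ U.card ∧
      (U \ U.image (fun u => p * u)).card * m ≤ U.card := by
  induction T with
  | zero =>
    refine ⟨{1}, by simp, ?_, by simp, ?_⟩
    · intro u hu
      rw [mem_singleton] at hu
      subst hu
      refine ⟨le_rfl, fun p hp h => ?_⟩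
      exact absurd (Nat.dvd_one.mp h) hp.one_lt.ne'
    · intro p _ h
      exact absurd h (by omega)
  | succ q ih =>
    obtain ⟨U, hne, hsm, hcard, hP⟩ := ih
    by_cases hq : q.Prime
    · -- the new set
      set f : ℕ × ℕ → ℕ := fun x => q ^ x.1 * x.2 with hf
      set V : Finset ℕ := (range m ×ˢ U).image f with hV
      have hcop : ∀ u ∈ U, ¬ q ∣ u := by
        intro u hu h
        exact absurd ((hsm u hu).2 q hq h) (by omega)
      have hinj : Set.InjOn f ((range m ×ˢ U : Finset (ℕ × ℕ)) : Set (ℕ × ℕ)) := by
        have key : ∀ i j u v : ℕ, ¬ q ∣ u → ¬ q ∣ v → q ^ i * u = q ^ j * v → i ≤ j → i = j ∧ u = v := by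
          intro i j u v hu hv h hij
          obtain ⟨k, rfl⟩ := Nat.exists_eq_add_of_le hij
          rw [pow_add, mul_assoc] at h
          have h2 := Nat.eq_of_mul_eq_mul_left (pow_pos hq.pos i) h
          rcases Nat.eq_zero_or_pos k with hk | hk
          · subst hk
            simpa using h2
          · exfalso
            apply hu
            rw [h2]
            exact Dvd.dvd.mul_right (dvd_pow_self q (by omega)) v
        intro x hx y hy hxy
        rw [Finset.mem_coe, mem_product] at hx hy
        have h1 : q ^ x.1 * x.2 = q ^ y.1 * y.2 := hxy
        rcases le_total x.1 y.1 with h | h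
        · obtain ⟨h2, h3⟩ := key _ _ _ _ (hcop _ hx.2) (hcop _ hy.2) h1 h
          exact Prod.ext h2 h3
        · obtain ⟨h2, h3⟩ := key _ _ _ _ (hcop _ hy.2) (hcop _ hx.2) h1.symm h
          exact Prod.ext h2.symm h3.symm
      have hVcard : V.card = m * U.card := by
        rw [hV, card_image_of_injOn hinj, card_product, card_range]
      refine ⟨V, ?_, ?_, ?_, ?_⟩
      · rw [← card_pos, hVcard]
        exact Nat.mul_pos hm (card_pos.mpr hne)
      · intro w hw
        rw [hV, mem_image] at hw
        obtain ⟨x, hx, rfl⟩ := hw
        rw [mem_product] at hx
        refine ⟨?_, ?_⟩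
        · exact Nat.mul_pos (pow_pos hq.pos _) (hsm _ hx.2).1
        · intro p hp hd
          rcases (Nat.Prime.dvd_mul hp).mp hd with h | h
          · have h3 := hp.dvd_of_dvd_pow h
            have h4 := (Nat.prime_dvd_prime_iff_eq hp hq).mp h3
            omega
          · have := (hsm _ hx.2).2 p hp h
            omega
      · rw [hVcard, pow_succ, mul_comm]
        exact Nat.mul_le_mul_right m hcard
      · intro p hp hpq
        rcases Nat.lt_succ_iff_lt_or_eq.mp hpq with hlt | heq
        · obtain ⟨h1, h2⟩ := hP p hp hlt
          constructor
          · have hsub : V.image (fun u => p * u) \ V ⊆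
                (range m ×ˢ (U.image (fun u => p * u) \ U)).image f := by
              intro w hw
              rw [mem_sdiff, mem_image] at hw
              obtain ⟨⟨v, hv, rfl⟩, hnot⟩ := hw
              rw [hV, mem_image] at hv
              obtain ⟨x, hx, rfl⟩ := hv
              rw [mem_product] at hx
              rw [mem_image]
              refine ⟨(x.1, p * x.2), ?_, ?_⟩
              · rw [mem_product, mem_sdiff]
                refine ⟨hx.1, mem_image_of_mem _ hx.2, ?_⟩
                intro hin
                apply hnot
                rw [hV, mem_image]
                refine ⟨(x.1, p * x.2), mem_product.mpr ⟨hx.1, hin⟩, ?_⟩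
                show q ^ x.1 * (p * x.2) = p * (q ^ x.1 * x.2)
                ring
              · show q ^ x.1 * (p * x.2) = p * (q ^ x.1 * x.2)
                ring
            have h3 := (card_le_card hsub).trans card_image_le
            rw [card_product, card_range] at h3
            calc (V.image (fun u => p * u) \ V).card * m
                ≤ (m * (U.image (fun u => p * u) \ U).card) * m := Nat.mul_le_mul_right m h3
              _ = m * ((U.image (fun u => p * u) \ U).card * m) := by ring
              _ ≤ m * U.card := Nat.mul_le_mul_left m h1
              _ = V.card := hVcard.symm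
          · have hsub : V \ V.image (fun u => p * u) ⊆
                (range m ×ˢ (U \ U.image (fun u => p * u))).image f := by
              intro w hw
              rw [mem_sdiff] at hw
              obtain ⟨hv, hnot⟩ := hw
              rw [hV, mem_image] at hv
              obtain ⟨x, hx, rfl⟩ := hv
              rw [mem_product] at hx
              rw [mem_image]
              refine ⟨x, ?_, rfl⟩
              rw [mem_product, mem_sdiff]
              refine ⟨hx.1, hx.2, ?_⟩
              intro hin
              apply hnot
              rw [mem_image] at hin
              obtain ⟨u, hu, hux⟩ := hin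
              rw [mem_image]
              refine ⟨q ^ x.1 * u, ?_, ?_⟩
              · rw [hV, mem_image]
                exact ⟨(x.1, u), mem_product.mpr ⟨hx.1, hu⟩, rfl⟩
              · show p * (q ^ x.1 * u) = q ^ x.1 * x.2
                rw [← hux]
                ring
            have h3 := (card_le_card hsub).trans card_image_le
            rw [card_product, card_range] at h3
            calc (V \ V.image (fun u => p * u)).card * m
                ≤ (m * (U \ U.image (fun u => p * u)).card) * m := Nat.mul_le_mul_right m h3
              _ = m * ((U \ U.image (fun u => p * u)).card * m) := by ring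
              _ ≤ m * U.card := Nat.mul_le_mul_left m h2
              _ = V.card := hVcard.symm
        · subst heq
          constructor
          · have hsub : V.image (fun u => p * u) \ V ⊆ U.image (fun u => p ^ m * u) := by
              intro w hw
              rw [mem_sdiff, mem_image] at hw
              obtain ⟨⟨v, hv, rfl⟩, hnot⟩ := hw
              rw [hV, mem_image] at hv
              obtain ⟨x, hx, rfl⟩ := hv
              rw [mem_product, mem_range] at hx
              have hx1 : x.1 + 1 = m := by
                by_contra hne
                apply hnot
                rw [hV, mem_image]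
                refine ⟨(x.1 + 1, x.2), ?_, ?_⟩
                · rw [mem_product, mem_range]
                  exact ⟨by show x.1 + 1 < m; omega, hx.2⟩
                · show p ^ (x.1 + 1) * x.2 = p * (p ^ x.1 * x.2)
                  ring
              rw [mem_image]
              refine ⟨x.2, hx.2, ?_⟩
              show p ^ m * x.2 = p * (p ^ x.1 * x.2)
              rw [← hx1]
              ring
            have h3 := (card_le_card hsub).trans card_image_le
            rw [hVcard, mul_comm]
            exact Nat.mul_le_mul_left m h3
          · have hsub : V \ V.image (fun u => p * u) ⊆ U := by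
              intro w hw
              rw [mem_sdiff] at hw
              obtain ⟨hv, hnot⟩ := hw
              rw [hV, mem_image] at hv
              obtain ⟨x, hx, rfl⟩ := hv
              rw [mem_product, mem_range] at hx
              rcases Nat.eq_zero_or_pos x.1 with h0 | h0
              · show p ^ x.1 * x.2 ∈ U
                rw [h0, pow_zero, one_mul]
                exact hx.2
              · exfalso
                apply hnot
                rw [mem_image]
                refine ⟨p ^ (x.1 - 1) * x.2, ?_, ?_⟩
                · rw [hV, mem_image]
                  refine ⟨(x.1 - 1, x.2), ?_, rfl⟩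
                  rw [mem_product, mem_range]
                  exact ⟨by show x.1 - 1 < m; omega, hx.2⟩
                · show p * (p ^ (x.1 - 1) * x.2) = p ^ x.1 * x.2
                  obtain ⟨k, hk⟩ : ∃ k, x.1 = k + 1 := ⟨x.1 - 1, by omega⟩
                  rw [hk, Nat.add_sub_cancel]
                  ring
            have h3 := card_le_card hsub
            rw [hVcard, mul_comm]
            exact Nat.mul_le_mul_left m h3
    · refine ⟨U, hne, ?_, ?_, ?_⟩
      · intro u hu
        refine ⟨(hsm u hu).1, fun p hp hd => ?_⟩
        have := (hsm u hu).2 p hp hd
        omega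
      · exact hcard.trans (Nat.pow_le_pow_right hm (by omega))
      · intro p hp hpq
        refine hP p hp ?_
        rcases Nat.lt_succ_iff_lt_or_eq.mp hpq with hlt | heq
        · exact hlt
        · subst heq
          exact absurd hp hq

theorem t_U : S_U := by
  intro T m hm
  obtain ⟨U, h1, h2, h3, h4⟩ := exists_U m hm T
  refine ⟨U, h1, h2, h3, fun p hp hpT => ?_⟩
  obtain ⟨h5, h6⟩ := h4 p hp hpT
  have hm' : (0 : ℝ) < m := by exact_mod_cast hm
  constructor
  · rw [le_div_iff₀ hm']
    exact_mod_cast h5
  · rw [le_div_iff₀ hm']
    exact_mod_cast h6

end Pool.Agent.W356.MR
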